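import Pool.Agent.Q73.NG.Main

set_option autoImplicit false

/-!
# MP_4d2d01_an, Q1

There is a generic (compact, non-polar, regular) set `K ⊆ [0,1]` of Lebesgue measure zero for which
the Jacobi matrix of the equilibrium measure is not asymptotically almost periodic.
-/

namespace Pool.Agent.Results.MP_4d2d01_an.NullGenericSet

open MeasureTheory Filter Topology Set

/-- The logarithmic energy `∫∫ log (1 / |x - y|) dμ dμ` of a measure on `[0,1]` (there the
integrand is nonnegative). -/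
noncomputable def energy (μ : Measure ℝ) : ENNReal :=
  ∫⁻ x, ∫⁻ y, (if x = y then (⊤ : ENNReal) else ENNReal.ofReal (-Real.log |x - y|)) ∂μ ∂μ

/-- `K ⊆ [0,1]` is non-polar and `μ` is its equilibrium measure: a probability measure on `K` of
finite and minimal logarithmic energy. -/
structure IsEquilibrium (K : Set ℝ) (μ : Measure ℝ) : Prop where
  prob : IsProbabilityMeasure μ
  supp : μ Kᶜ = 0
  finite : energy μ < ⊤
  minimal : ∀ ν : Measure ℝ, IsProbabilityMeasure ν → ν Kᶜ = 0 → energy μ ≤ energy ν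

/-- The Green function of the complement of `K` with pole at infinity,
`g(z) = I(μ) + ∫ log |z - t| dμ(t)`, where `μ` is the equilibrium measure and `I(μ)` its energy. -/
noncomputable def green (μ : Measure ℝ) (z : ℂ) : ℝ :=
  (energy μ).toReal + ∫ t, Real.log ‖z - (t : ℂ)‖ ∂μ

/-- Regularity for the Dirichlet problem: the Green function is (defined and) continuous on `ℂ` and
vanishes on `K`. -/
def Regular (K : Set ℝ) (μ : Measure ℝ) : Prop :=
  (∀ z : ℂ, Integrable (fun t : ℝ => Real.log ‖z - (t : ℂ)‖) μ) ∧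
    Continuous (green μ) ∧ ∀ x ∈ K, green μ (x : ℂ) = 0

/-- The Jacobi parameter `a_{n+1} = ∫ x p_n(x) p_{n+1}(x) dμ(x)`. -/
noncomputable def jacA (μ : Measure ℝ) (p : ℕ → Polynomial ℝ) (n : ℕ) : ℝ :=
  ∫ x, x * (p n).eval x * (p (n + 1)).eval x ∂μ

/-- The Jacobi parameter `b_{n+1} = ∫ x p_n(x)^2 dμ(x)`. -/
noncomputable def jacB (μ : Measure ℝ) (p : ℕ → Polynomial ℝ) (n : ℕ) : ℝ :=
  ∫ x, x * (p n).eval x * (p n).eval x ∂μ

/-- Almost periodicity of a two-sided sequence of pairs: its shifts form a precompact (totally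
bounded) set for the supremum metric. -/
def AlmostPeriodic (a b : ℤ → ℝ) : Prop :=
  ∀ ε : ℝ, 0 < ε → ∃ F : Finset ℤ, ∀ k : ℤ, ∃ l ∈ F, ∀ n : ℤ,
    |a (n + k) - a (n + l)| < ε ∧ |b (n + k) - b (n + l)| < ε

/-- Asymptotic almost periodicity of the Jacobi matrix with `a_{n+1} = a n`, `b_{n+1} = b n`. -/
def AsymptoticallyAlmostPeriodic (a b : ℕ → ℝ) : Prop :=
  ∃ a' b' : ℤ → ℝ, AlmostPeriodic a' b' ∧
    Tendsto (fun n : ℕ => |a n - a' (n + 1)| + |b n - b' (n + 1)|) atTop (𝓝 0)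

theorem bohr {a b : ℤ → ℝ} (h : AlmostPeriodic a b) (ε : ℝ) (hε : 0 < ε) :
    ∃ L : ℕ, ∀ m : ℤ, ∃ τ : ℤ, m ≤ τ ∧ τ ≤ m + L ∧
      ∀ n : ℤ, |a (n + τ + 1) - a (n + 1)| < ε := by
  obtain ⟨F, hF⟩ := h ε hε
  set M : ℕ := F.sup (fun l => l.natAbs) with hM
  refine ⟨2 * M, fun m => ?_⟩
  obtain ⟨l, hl, hn⟩ := hF (m + M)
  have h1 : l.natAbs ≤ M := Finset.le_sup (f := fun l : ℤ => l.natAbs) hl
  refine ⟨m + M - l, by omega, by push_cast; omega, fun n => ?_⟩
  have h2 := (hn (n + 1 - l)).1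
  rw [show n + 1 - l + (m + M) = n + (m + M - l) + 1 by ring, show n + 1 - l + l = n + 1 by ring]
    at h2
  exact h2

theorem result : ∃ (K : Set ℝ) (μ : Measure ℝ) (p : ℕ → Polynomial ℝ),
    IsCompact K ∧ K ⊆ Icc 0 1 ∧ IsEquilibrium K μ ∧ Regular K μ ∧ volume K = 0 ∧
    (∀ n, (p n).natDegree = n ∧ 0 < (p n).leadingCoeff) ∧
    (∀ m n, ∫ x, (p m).eval x * (p n).eval x ∂μ = if m = n then 1 else 0) ∧
    ¬ AsymptoticallyAlmostPeriodic (jacA μ p) (jacB μ p) := by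
  obtain ⟨μ, hS, hprob, hbad, hK, hfin, hmin, horth, hcoef⟩ := Pool.Agent.Q73.NG.main2
  have hen : energy ((μ 0 : Measure ℝ).map Pool.Agent.Helper973.KG.ph)
      = ENNReal.ofReal (Real.log 2 + Pool.Agent.Q73.NG.c0) := Pool.Agent.Q73.NG.energy_eq hS hK
  have hlog2 : 0 ≤ Real.log 2 := Real.log_nonneg (by norm_num)
  have hc0 := Pool.Agent.Q73.NG.c0_nonneg
  have hgreen : green ((μ 0 : Measure ℝ).map Pool.Agent.Helper973.KG.ph)
      = fun z => Pool.Agent.Q73.NG.gr (2 * z - 1) := by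
    funext z
    unfold green
    rw [hen, ENNReal.toReal_ofReal (by linarith), Pool.Agent.Q73.NG.pot_ph hS z]
    ring
  refine ⟨Pool.Agent.Helper973.KG.badᶜ, (μ 0 : Measure ℝ).map Pool.Agent.Helper973.KG.ph,
    Pool.Agent.Helper973.KG.pz, Pool.Agent.Q73.NG.isCompact_compl_bad,
    Pool.Agent.Q73.NG.compl_bad_subset, ⟨hprob, by rw [compl_compl]; exact hbad, hfin, ?_⟩,
    ⟨?_, ?_, ?_⟩, Pool.Agent.Q73.NG.volume_compl_bad, Pool.Agent.Helper973.KG.pz_deg, horth, ?_⟩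
  · intro ν hν hb
    rw [compl_compl] at hb
    exact hmin ν hν hb
  · intro z
    rw [integrable_map_measure (Pool.Agent.Q73.NG.meas_log z).aestronglyMeasurable
      Pool.Agent.Helper973.KG.meas_ph.aemeasurable]
    obtain ⟨hne, hint, _⟩ := Pool.Agent.Q73.NG.Up_all hS (2 * z - 1)
    refine (hint.sub (integrable_const (Real.log 2))).congr ?_
    filter_upwards [hne] with w hw
    have h1 : z - ((Pool.Agent.Helper973.KG.ph w : ℝ) : ℂ) = ((2 * z - 1) - (w : ℂ)) / 2 := by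
      unfold Pool.Agent.Helper973.KG.ph
      push_cast
      ring
    show Real.log ‖2 * z - 1 - (w : ℂ)‖ - Real.log 2
      = Real.log ‖z - ((Pool.Agent.Helper973.KG.ph w : ℝ) : ℂ)‖
    rw [h1, norm_div, Complex.norm_ofNat, Real.log_div _ (by norm_num)]
    rw [norm_ne_zero_iff]
    exact sub_ne_zero.mpr hw
  · rw [hgreen]
    exact Pool.Agent.Q73.NG.cont_gr.comp (by fun_prop)
  · intro x hx
    rw [hgreen]
    show Pool.Agent.Q73.NG.gr (2 * (x : ℂ) - 1) = 0
    rw [Pool.Agent.Q73.NG.ps_coe]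
    rw [Pool.Agent.Q73.NG.compl_bad] at hx
    exact Pool.Agent.Q73.NG.gr_zero hx
  · rintro ⟨a', b', hap, ht⟩
    apply Pool.Agent.Helper973.KG.not_aap _ hcoef
    refine ⟨fun n => a' (n + 1), ?_, ?_⟩
    · intro ε hε
      obtain ⟨L, hL⟩ := bohr hap ε hε
      refine ⟨L, fun m => ?_⟩
      obtain ⟨τ, h1, h2, h3⟩ := hL m
      exact ⟨τ, h1, h2, h3⟩
    · refine squeeze_zero_norm (fun n => ?_) ht
      rw [Real.norm_eq_abs]
      exact le_add_of_nonneg_right (abs_nonneg _)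

end Pool.Agent.Results.MP_4d2d01_an.NullGenericSet
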